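import Pool.Agent.Y935.WR.Stm

/-!
# Lower bound for a weighted window count (project WR, job LOW)
-/

set_option autoImplicit false

namespace Pool.Agent.Y614.WR

open Finset MeasureTheory Filter
open Pool.Agent.Helper602.MK (ee)
open Pool.Agent.Y935.WR

/-- the weight is large near the centre -/
theorem Wt_ge (M : ℕ) (t : ℤ) (hM : 1 ≤ M) (ht : 2 * |t| ≤ M) : 1 / (2 * (M : ℝ)) ≤ Wt M t := by
  have hM' : (1 : ℝ) ≤ M := by exact_mod_cast hM
  have key : (M : ℝ) / 2 ≤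
      (((range M ×ˢ range M).filter fun p : ℕ × ℕ => (p.1 : ℤ) - p.2 = t).card : ℝ) := by
    obtain ⟨n, hn⟩ := t.eq_nat_or_neg
    have h2n : 2 * n ≤ M := by
      rcases hn with rfl | rfl
      · rw [Nat.abs_cast] at ht; exact_mod_cast ht
      · rw [abs_neg, Nat.abs_cast] at ht; exact_mod_cast ht
    have hcard : M - n ≤ ((range M ×ˢ range M).filter fun p : ℕ × ℕ => (p.1 : ℤ) - p.2 = t).card := by
      rcases hn with rfl | rfl
      · rw [← card_range (M - n)]
        refine card_le_card_of_injOn (fun j => (n + j, j)) ?_ ?_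
        · intro j hj
          have hj' := mem_range.1 (mem_coe.1 hj)
          rw [mem_coe, mem_filter, mem_product, mem_range, mem_range]
          refine ⟨⟨?_, ?_⟩, ?_⟩
          · show n + j < M; omega
          · show j < M; omega
          · push_cast; ring
        · intro a _ b _ h
          exact (Prod.mk.injEq _ _ _ _ ▸ h).2
      · rw [← card_range (M - n)]
        refine card_le_card_of_injOn (fun j => (j, n + j)) ?_ ?_
        · intro j hj
          have hj' := mem_range.1 (mem_coe.1 hj)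
          rw [mem_coe, mem_filter, mem_product, mem_range, mem_range]
          refine ⟨⟨?_, ?_⟩, ?_⟩
          · show j < M; omega
          · show n + j < M; omega
          · push_cast; ring
        · intro a _ b _ h
          exact (Prod.mk.injEq _ _ _ _ ▸ h).1
    have h3 : ((M - n : ℕ) : ℝ) ≤
        (((range M ×ˢ range M).filter fun p : ℕ × ℕ => (p.1 : ℤ) - p.2 = t).card : ℝ) := by
      exact_mod_cast hcard
    refine le_trans ?_ h3
    rw [Nat.cast_sub (by omega)]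
    have : (2 : ℝ) * n ≤ M := by exact_mod_cast h2n
    linarith
  unfold Wt
  rw [div_le_div_iff₀ (by positivity) (by positivity), one_mul]
  nlinarith

theorem Wt_nonneg (M : ℕ) (t : ℤ) : 0 ≤ Wt M t := by
  unfold Wt; positivity

theorem sin_sq_eq (u : ℝ) : Real.sin (Real.pi * u) ^ 2 = 1 / 2 - (ee u).re / 2 := by
  have h1 : (ee u).re = Real.cos (2 * (Real.pi * u)) := by
    unfold ee
    have : (2 * (Real.pi : ℂ) * u * Complex.I) = ((2 * (Real.pi * u) : ℝ) : ℂ) * Complex.I := by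
      push_cast; ring
    rw [this, Complex.exp_ofReal_mul_I_re]
  rw [h1, Real.cos_two_mul]
  have := Real.sin_sq_add_cos_sq (Real.pi * u)
  linarith

/-- Difference of powers. -/
theorem pow_sub_le (k : ℕ) (a b B : ℝ) (ha : 0 ≤ a) (hb : 0 ≤ b) (haB : a ≤ B) (hbB : b ≤ B) :
    |a ^ k - b ^ k| ≤ k * B ^ (k - 1) * |a - b| := by
  have hB : 0 ≤ B := ha.trans haB
  induction k with
  | zero => simp
  | succ n ih =>
    rcases Nat.eq_zero_or_pos n with rfl | hn
    · simp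
    have e1 : a ^ (n + 1) - b ^ (n + 1) = a * (a ^ n - b ^ n) + b ^ n * (a - b) := by ring
    have e2 : B * B ^ (n - 1) = B ^ n := by
      rw [← pow_succ']
      congr 1
      omega
    rw [e1]
    calc |a * (a ^ n - b ^ n) + b ^ n * (a - b)| ≤ |a * (a ^ n - b ^ n)| + |b ^ n * (a - b)| :=
          abs_add_le _ _
      _ = a * |a ^ n - b ^ n| + b ^ n * |a - b| := by
          rw [abs_mul, abs_mul, abs_of_nonneg ha, abs_of_nonneg (pow_nonneg hb n)]
      _ ≤ B * (n * B ^ (n - 1) * |a - b|) + B ^ n * |a - b| := by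
          gcongr
      _ = ((n + 1 : ℕ) : ℝ) * B ^ (n + 1 - 1) * |a - b| := by
          rw [Nat.add_sub_cancel, ← e2]
          push_cast
          ring

/-- LOW -/
theorem low : S_LOW := by
  intro k μ κ T hk hκ0 hκ1 hT
  have hk' : (2 : ℝ) ≤ k := by exact_mod_cast hk
  have hT' : (2 : ℝ) ≤ T := by exact_mod_cast hT
  set c1 : ℝ := 1 / (8 * k * (2 * T) ^ (k - 1)) with hc1
  have hc10 : 0 < c1 := by rw [hc1]; positivity
  have hc1k : k * (2 * (T : ℝ)) ^ (k - 1) * c1 = 1 / 8 := by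
    rw [hc1]; field_simp
  have hc14 : c1 ≤ 1 / 4 := by
    have h1 : (1 : ℝ) ≤ (2 * (T : ℝ)) ^ (k - 1) := one_le_pow₀ (by linarith)
    have h2 : (k : ℝ) * 1 * c1 ≤ k * (2 * (T : ℝ)) ^ (k - 1) * c1 := by gcongr
    rw [hc1k, mul_one] at h2
    have h3 : 2 * c1 ≤ k * c1 := mul_le_mul_of_nonneg_right hk' hc10.le
    linarith
  refine ⟨c1 / 16, by positivity, ?_⟩
  have hev : ∀ᶠ P : ℕ in atTop, 2 * k * |μ| ≤ (P : ℝ) ∧ (3 : ℝ) ≤ P ∧
      4 / c1 ≤ (P : ℝ) ^ (1 - κ) := by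
    have ha : ∀ x : ℝ, ∀ᶠ N : ℕ in atTop, x ≤ (N : ℝ) := fun x =>
      tendsto_natCast_atTop_atTop.eventually_ge_atTop x
    have hb : Tendsto (fun p : ℕ => (p : ℝ) ^ (1 - κ)) atTop atTop :=
      (tendsto_rpow_atTop (by linarith)).comp tendsto_natCast_atTop_atTop
    exact (ha _).and ((ha _).and (hb.eventually_ge_atTop _))
  filter_upwards [hev] with P hP α M v E hα hM1 hM2 hv1 hv2 hE hEc
  obtain ⟨hP1, hP3, hP4⟩ := hP
  have hP0 : (0 : ℝ) < P := by linarith
  have hα0 : (0 : ℝ) < α := by linarith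
  have hμ : |μ| ≤ P / (2 * k) := by
    rw [le_div_iff₀ (by positivity)]; linarith
  obtain ⟨hμ1, hμ2⟩ := abs_le.1 hμ
  set η : ℝ := 1 / (2 * k) with hη
  have hη0 : 0 < η := by rw [hη]; positivity
  have hη1 : η ≤ 1 / 4 := by
    rw [hη, div_le_div_iff₀ (by positivity) (by norm_num)]; linarith
  have hPη : (P : ℝ) / (2 * k) = η * P := by rw [hη]; ring
  rw [hPη] at hμ hμ1 hμ2
  -- Bernoulli
  have hB1 : 1 / 2 ≤ (1 - η) ^ k := by
    have := one_add_mul_le_pow (a := -η) (by linarith) k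
    have h2 : (k : ℝ) * η = 1 / 2 := by rw [hη]; field_simp
    calc (1 : ℝ) / 2 = 1 + k * (-η) := by linarith
      _ ≤ (1 + -η) ^ k := this
      _ = _ := by ring
  have hB2 : (1 + η) ^ k ≤ 2 := by
    have h1 : (1 + η) ^ k * (1 - η) ^ k ≤ 1 := by
      rw [← mul_pow]
      apply pow_le_one₀
      · exact mul_nonneg (by linarith) (by linarith)
      · have e1 : (1 + η) * (1 - η) = 1 - η ^ 2 := by ring
        rw [e1]
        have := sq_nonneg η
        linarith
    have h2 : 0 ≤ (1 + η) ^ k := by positivity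
    have h3 : (1 + η) ^ k * (1 / 2) ≤ (1 + η) ^ k * (1 - η) ^ k := mul_le_mul_of_nonneg_left hB1 h2
    linarith
  -- size of `M`
  have hPk1 : 0 < (P : ℝ) ^ (k - 1) := by positivity
  have hPk : (P : ℝ) ^ k = (P : ℝ) ^ (k - 1) * P := by
    rw [← pow_succ]; congr 1; omega
  have hMP : α * ((P : ℝ) ^ (k - 1) * (P : ℝ) ^ (1 - κ)) ≤ M := by
    refine le_trans (le_of_eq ?_) hM1
    rw [← Real.rpow_natCast, ← Real.rpow_add hP0]
    congr 2
    rw [Nat.cast_sub (by omega)]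
    push_cast
    ring
  have hM0 : (0 : ℝ) < M := lt_of_lt_of_le (by positivity) hMP
  have hM3 : (3 : ℝ) ≤ M := by
    refine le_trans hP3 (le_trans ?_ hM1)
    have h1 : (P : ℝ) ^ (1 : ℝ) ≤ (P : ℝ) ^ ((k : ℝ) - κ) :=
      Real.rpow_le_rpow_of_exponent_le (by linarith) (by linarith)
    rw [Real.rpow_one] at h1
    have h2 : 1 * (P : ℝ) ^ ((k : ℝ) - κ) ≤ α * (P : ℝ) ^ ((k : ℝ) - κ) :=
      mul_le_mul_of_nonneg_right hα (by positivity)
    linarith
  -- the length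
  set L : ℝ := c1 * (M / (α * (P : ℝ) ^ (k - 1))) with hL
  have hL0 : 0 < L := by rw [hL]; positivity
  have hL4 : 4 ≤ L := by
    rw [hL]
    have h1 : (P : ℝ) ^ (1 - κ) ≤ M / (α * (P : ℝ) ^ (k - 1)) := by
      rw [le_div_iff₀ (by positivity)]
      linarith
    rw [div_le_iff₀ hc10] at hP4
    have h2 : c1 * (P : ℝ) ^ (1 - κ) ≤ c1 * (M / (α * (P : ℝ) ^ (k - 1))) :=
      mul_le_mul_of_nonneg_left h1 hc10.le
    linarith
  have hLP : L ≤ P / 4 := by
    rw [hL]
    have h1 : M / (α * (P : ℝ) ^ (k - 1)) ≤ P := by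
      rw [div_le_iff₀ (by positivity)]
      rw [hPk] at hM2
      linarith
    have h2 : c1 * (M / (α * (P : ℝ) ^ (k - 1))) ≤ 1 / 4 * P := by gcongr
    linarith
  have hTP : (P : ℝ) ≤ T * P := le_mul_of_one_le_left hP0.le (by linarith)
  have hηP : η * P ≤ T * P := mul_le_mul_of_nonneg_right (by linarith) hP0.le
  have h2TP : (2 : ℝ) * P ≤ T * P := mul_le_mul_of_nonneg_right hT' hP0.le
  -- the centre
  set w : ℝ := ((v : ℝ) / α) ^ ((1 : ℝ) / k) with hw
  have hv0 : 0 ≤ (v : ℝ) / α := by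
    have : (0 : ℝ) ≤ 2 * α * (P : ℝ) ^ k := by positivity
    exact div_nonneg (this.trans hv1) hα0.le
  have hwk : w ^ k = v / α := by
    rw [hw, ← Real.rpow_natCast, ← Real.rpow_mul hv0, one_div_mul_cancel (by positivity), Real.rpow_one]
  have hw0 : 0 ≤ w := by rw [hw]; positivity
  have hw1 : (P : ℝ) - μ ≤ w := by
    have h1 : (P : ℝ) - μ ≤ (1 + η) * P := by linarith
    have h2 : ((1 + η) * P) ^ k ≤ w ^ k := by
      rw [hwk, le_div_iff₀ hα0, mul_pow]
      calc (1 + η) ^ k * (P : ℝ) ^ k * α ≤ 2 * (P : ℝ) ^ k * α := by gcongr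
        _ ≤ v := by linarith
    exact h1.trans (le_of_pow_le_pow_left₀ (by omega) hw0 h2)
  have hw2 : w ≤ T * P - μ := by
    have h1 : (1 - η) * (T * P) ≤ (T : ℝ) * P - μ := by
      have : η * P ≤ η * (T * P) := mul_le_mul_of_nonneg_left hTP hη0.le
      linarith
    have h0 : 0 ≤ (1 - η) * ((T : ℝ) * P) := by
      have : 0 ≤ 1 - η := by linarith
      positivity
    have h2 : w ^ k ≤ ((1 - η) * (T * P)) ^ k := by
      rw [hwk, div_le_iff₀ hα0, mul_pow]
      calc (v : ℝ) ≤ α * (T * P : ℝ) ^ k / 2 := hv2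
        _ = 1 / 2 * (T * P : ℝ) ^ k * α := by ring
        _ ≤ (1 - η) ^ k * (T * P : ℝ) ^ k * α := by gcongr
    exact (le_of_pow_le_pow_left₀ (by omega) h0 h2).trans h1
  -- the interval
  obtain ⟨y, hy1, hy2, hy3, hy4⟩ : ∃ y : ℝ, (P : ℝ) ≤ y ∧ y + L ≤ T * P ∧ y ≤ w + μ ∧
      w + μ ≤ y + L := by
    by_cases h : w + μ + L ≤ T * P
    · exact ⟨w + μ, by linarith, h, le_rfl, by linarith⟩
    · rw [not_le] at h
      refine ⟨w + μ - L, ?_, by linarith, by linarith, by linarith⟩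
      linarith
  have hy0 : 0 ≤ y := by linarith
  set a : ℕ := ⌊y⌋₊ with ha
  set b : ℕ := ⌊y + L⌋₊ with hb
  have ha1 : (a : ℝ) ≤ y := Nat.floor_le hy0
  have ha2 : y < a + 1 := Nat.lt_floor_add_one y
  have hb1 : (b : ℝ) ≤ y + L := Nat.floor_le (by linarith)
  have hb2 : y + L < b + 1 := Nat.lt_floor_add_one _
  have hab : a + 1 ≤ b := by
    have : (a : ℝ) + 1 < b + 1 := by linarith
    have h2 : (a : ℝ) < b := by linarith
    exact_mod_cast h2
  have hPa : P ≤ a := by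
    rw [ha]; exact Nat.le_floor hy1
  have hbT : b ≤ T * P := by
    have : (b : ℝ) ≤ T * P := by linarith
    exact_mod_cast this
  set N : ℕ := b - (a + 1) with hN
  have hNL : L / 2 ≤ N := by
    rw [hN, Nat.cast_sub hab]
    push_cast
    linarith
  have hexp := hE (a + 1) N (by omega)
  -- the terms
  have hterm : ∀ n ∈ range N, Real.sin (Real.pi * (α * (((a + 1 + n : ℕ) : ℝ) - μ) ^ k)) ^ 2 *
      (1 / (2 * M)) ≤ Real.sin (Real.pi * (α * (((a + 1 + n : ℕ) : ℝ) - μ) ^ k)) ^ 2 *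
        Wt M (v - ⌊α * (((a + 1 + n : ℕ) : ℝ) - μ) ^ k⌋) := by
    intro n hn
    rw [mem_range] at hn
    apply mul_le_mul_of_nonneg_left _ (sq_nonneg _)
    apply Wt_ge M _ (by exact_mod_cast (by linarith : (1 : ℝ) ≤ M))
    set z : ℝ := ((a + 1 + n : ℕ) : ℝ) with hz
    have hzb : a + 1 + n ≤ b := by omega
    have hz1 : z ≤ y + L := by
      have : z ≤ b := by rw [hz]; exact_mod_cast hzb
      linarith
    have hz2 : y ≤ z := by
      have : (a : ℝ) + 1 ≤ z := by rw [hz]; push_cast; linarith [(Nat.cast_nonneg n : (0 : ℝ) ≤ n)]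
      linarith
    have hzw : |(z - μ) - w| ≤ L := by
      rw [abs_le]
      constructor <;> linarith
    have hηP' : η * P ≤ P := by
      have : η * P ≤ 1 * P := mul_le_mul_of_nonneg_right (by linarith) hP0.le
      linarith
    have hd := pow_sub_le k (z - μ) w (2 * T * P) (by linarith) hw0 (by linarith) (by linarith)
    have hd2 : |α * (z - μ) ^ k - v| ≤ M / 8 := by
      have e1 : (v : ℝ) = α * w ^ k := by rw [hwk]; field_simp
      rw [e1, ← mul_sub, abs_mul, abs_of_pos hα0]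
      calc α * |(z - μ) ^ k - w ^ k| ≤ α * (k * (2 * T * P) ^ (k - 1) * L) := by gcongr; exact hd.trans (by gcongr)
        _ = (k * (2 * (T : ℝ)) ^ (k - 1) * c1) * M := by
            rw [hL, mul_pow]
            field_simp
        _ = M / 8 := by rw [hc1k]; ring
    have hfl1 := Int.floor_le (α * (z - μ) ^ k)
    have hfl2 := Int.lt_floor_add_one (α * (z - μ) ^ k)
    obtain ⟨hd3, hd4⟩ := abs_le.1 hd2
    have hfin : |((v - ⌊α * (z - μ) ^ k⌋ : ℤ) : ℝ)| ≤ M / 2 := by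
      rw [abs_le]
      push_cast
      constructor <;> linarith
    have h9 : (2 : ℝ) * |((v - ⌊α * (z - μ) ^ k⌋ : ℤ) : ℝ)| ≤ M := by linarith
    exact_mod_cast h9
  -- the sum
  have hsub : ∑ n ∈ range N, Real.sin (Real.pi * (α * (((a + 1 + n : ℕ) : ℝ) - μ) ^ k)) ^ 2 *
        Wt M (v - ⌊α * (((a + 1 + n : ℕ) : ℝ) - μ) ^ k⌋) ≤ ∑ z ∈ Ioc P (T * P),
      Real.sin (Real.pi * (α * ((z : ℝ) - μ) ^ k)) ^ 2 * Wt M (v - ⌊α * ((z : ℝ) - μ) ^ k⌋) := by
    have e1 : ∑ z ∈ Ico (a + 1) b, Real.sin (Real.pi * (α * ((z : ℝ) - μ) ^ k)) ^ 2 *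
        Wt M (v - ⌊α * ((z : ℝ) - μ) ^ k⌋) = ∑ n ∈ range N,
        Real.sin (Real.pi * (α * (((a + 1 + n : ℕ) : ℝ) - μ) ^ k)) ^ 2 *
        Wt M (v - ⌊α * (((a + 1 + n : ℕ) : ℝ) - μ) ^ k⌋) := by
      rw [Finset.sum_Ico_eq_sum_range]
    rw [← e1]
    apply sum_le_sum_of_subset_of_nonneg
    · intro z hz
      rw [mem_Ico] at hz
      rw [mem_Ioc]
      omega
    · intro z _ _
      exact mul_nonneg (sq_nonneg _) (Wt_nonneg _ _)
  refine le_trans ?_ hsub
  refine le_trans ?_ (sum_le_sum hterm)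
  rw [← sum_mul]
  have hsin : (N : ℝ) / 2 - E / 2 ≤
      ∑ n ∈ range N, Real.sin (Real.pi * (α * (((a + 1 + n : ℕ) : ℝ) - μ) ^ k)) ^ 2 := by
    have e1 : ∀ n ∈ range N, Real.sin (Real.pi * (α * (((a + 1 + n : ℕ) : ℝ) - μ) ^ k)) ^ 2 =
        1 / 2 - (ee (α * (((a + 1 : ℕ) : ℝ) + n - μ) ^ k)).re / 2 := by
      intro n _
      rw [sin_sq_eq]
      push_cast
      rfl
    rw [sum_congr rfl e1, sum_sub_distrib, sum_const, card_range, nsmul_eq_mul, ← sum_div,
      ← Complex.re_sum]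
    have h2 := (Complex.re_le_norm (∑ n ∈ range N, ee (α * (((a + 1 : ℕ) : ℝ) + n - μ) ^ k))).trans hexp
    linarith
  have hE4 : E ≤ L / 4 := by
    refine hEc.trans ?_
    rw [hL]
    have h1 : 0 ≤ (M : ℝ) / (α * (P : ℝ) ^ (k - 1)) := by positivity
    have h2 : 0 ≤ c1 * ((M : ℝ) / (α * (P : ℝ) ^ (k - 1))) := mul_nonneg hc10.le h1
    linarith
  have h8 : L / 8 ≤ ∑ n ∈ range N, Real.sin (Real.pi * (α * (((a + 1 + n : ℕ) : ℝ) - μ) ^ k)) ^ 2 := by
    linarith
  calc c1 / 16 / (α * (P : ℝ) ^ (k - 1)) = L / 8 * (1 / (2 * M)) := by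
        rw [hL]
        field_simp
        ring
    _ ≤ _ := by gcongr

end Pool.Agent.Y614.WR
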