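import Pool.Agent.W287.WR.Perman

/-!
# Uniform permanence of variable-k weakly reversible systems (helper614)

Library part: the absorbing time of the bodies of project WR is uniform in the rates, in the
starting time and in the starting point (on compact sets), also for compact families of classes.
-/

set_option autoImplicit false

namespace Pool.Agent.Y614.WR.Unif

open W712.WR Finset MeasureTheory Pool.Agent.W287.WR.Perman

section

variable {n : ℕ} {E : Finset ((Fin n → ℝ) × (Fin n → ℝ))} {ε : ℝ}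
  {T : Finset ((Fin n → ℝ) × (ℝ → ℝ))} {c M : ℝ → ℝ} {R0 : ℝ}

/-- the exhaustion is uniform on boxes -/
theorem exh_box (D : Dat E ε T c M R0) (m K : ℝ) (hm : 0 < m) :
    ∃ R' : ℝ, ∀ R, R' ≤ R → ∀ x : Fin n → ℝ, (∀ j, m ≤ x j ∧ x j ≤ K) →
      ∀ p ∈ T, ∑ j, p.1 j * x j < p.2 R := by
  classical
  have h : ∀ S : Finset (Fin n), ∃ R' : ℝ, ∀ R, R' ≤ R → ∀ p ∈ T,
      ∑ j, p.1 j * (if j ∈ S then max K m else m) < p.2 R := fun S =>
    D.exh (fun j => if j ∈ S then max K m else m) (fun j => by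
      show 0 < if j ∈ S then max K m else m
      split_ifs
      · exact lt_of_lt_of_le hm (le_max_right _ _)
      · exact hm)
  choose R' hR' using h
  refine ⟨∑ S, |R' S|, fun R hR x hx p hp => ?_⟩
  set S : Finset (Fin n) := univ.filter fun j => 0 ≤ p.1 j with hS
  have h1 : R' S ≤ R := ((le_abs_self _).trans (single_le_sum (f := fun S => |R' S|)
    (fun _ _ => abs_nonneg _) (mem_univ S))).trans hR
  refine lt_of_le_of_lt (sum_le_sum fun j _ => ?_) (hR' S R h1 p hp)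
  by_cases hj : 0 ≤ p.1 j
  · rw [if_pos (by simp [hS, hj])]
    exact mul_le_mul_of_nonneg_left ((hx j).2.trans (le_max_left _ _)) hj
  · rw [if_neg (by simp [hS, hj])]
    exact mul_le_mul_of_nonpos_left (hx j).1 (not_le.1 hj).le

/-- compact sets of positive vectors lie in boxes -/
theorem box_of_compact {C : Set (Fin n → ℝ)} (hC : IsCompact C)
    (hpos : ∀ x ∈ C, ∀ i, 0 < x i) :
    ∃ m K : ℝ, 0 < m ∧ ∀ x ∈ C, ∀ j, m ≤ x j ∧ x j ≤ K := by
  have h1 : ∀ j : Fin n, ∃ a : ℝ, 0 < a ∧ ∀ x ∈ C, a ≤ x j := fun j =>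
    hC.exists_forall_le' (f := fun x : Fin n → ℝ => x j) (continuous_apply j).continuousOn
      fun x hx => hpos x hx j
  choose a ha haC using h1
  obtain ⟨K, hK⟩ := hC.isBounded.exists_norm_le
  have hs : 0 ≤ ∑ j, (a j)⁻¹ := sum_nonneg fun j _ => (inv_pos.2 (ha j)).le
  refine ⟨(∑ j, (a j)⁻¹ + 1)⁻¹, K, by positivity, fun x hx j => ⟨?_, ?_⟩⟩
  · refine le_trans ?_ (haC j x hx)
    rw [inv_le_comm₀ (by positivity) (ha j)]
    have := single_le_sum (f := fun j => (a j)⁻¹) (fun j _ => (inv_pos.2 (ha j)).le) (mem_univ j)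
    linarith
  · exact (le_abs_self _).trans ((norm_le_pi_norm x j).trans (hK x hx))

/-- the body -/
def Kb (T : Finset ((Fin n → ℝ) × (ℝ → ℝ))) (R : ℝ) : Set (Fin n → ℝ) :=
  {z | ∀ p ∈ T, ∑ j, p.1 j * z j - p.2 R ≤ 0}

theorem Kb_box (D : Dat E ε T c M R0) {R : ℝ} (hR : R0 ≤ R) {z : Fin n → ℝ} (hz : z ∈ Kb T R)
    (j : Fin n) : c R ≤ z j ∧ z j ≤ M R :=
  D.bnd R hR z (fun p hp => (hz p hp).trans (D.cpos R).le) j

theorem Kb_pos (D : Dat E ε T c M R0) {R : ℝ} (hR : R0 ≤ R) {z : Fin n → ℝ} (hz : z ∈ Kb T R)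
    (j : Fin n) : 0 < z j := (D.cpos R).trans_le (Kb_box D hR hz j).1

theorem Kb_compact (D : Dat E ε T c M R0) {R : ℝ} (hR : R0 ≤ R) : IsCompact (Kb T R) := by
  refine IsCompact.of_isClosed_subset (isCompact_Icc (a := fun _ : Fin n => c R)
    (b := fun _ : Fin n => M R)) ?_ ?_
  · unfold Kb
    simp only [Set.ofPred_forall]
    refine isClosed_iInter fun p => isClosed_iInter fun _ => ?_
    refine isClosed_le ?_ continuous_const
    fun_prop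
  · intro z hz
    exact ⟨fun j => (Kb_box D hR hz j).1, fun j => (Kb_box D hR hz j).2⟩

theorem Kb_convex (R : ℝ) : Convex ℝ (Kb T R) := by
  intro x hx y hy a b ha hb hab p hp
  have h1 := hx p hp
  have h2 := hy p hp
  have h3 : ∑ j, p.1 j * (a • x + b • y) j = a * ∑ j, p.1 j * x j + b * ∑ j, p.1 j * y j := by
    rw [mul_sum, mul_sum, ← sum_add_distrib]
    refine sum_congr rfl fun j _ => ?_
    simp only [Pi.add_apply, Pi.smul_apply, smul_eq_mul]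
    ring
  rw [h3]
  have h4 : p.2 R = a * p.2 R + b * p.2 R := by rw [← add_mul, hab, one_mul]
  rw [h4]
  nlinarith [mul_le_mul_of_nonneg_left h1 ha, mul_le_mul_of_nonneg_left h2 hb]

/-- the intersection with a class is compact -/
theorem Kb_cls (D : Dat E ε T c M R0) {R : ℝ} (hR : R0 ≤ R) (x₀ : Fin n → ℝ) :
    IsCompact (Kb T R ∩ cls E x₀) := by
  have h := compactK D x₀ R hR
  convert h using 1
  ext z
  exact and_comm

/-- solutions stay in their class -/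
theorem in_cls' (x₀ : Fin n → ℝ) (k : (Fin n → ℝ) × (Fin n → ℝ) → ℝ → ℝ)
    (J : Set ℝ) (hJ : J.OrdConnected) (y : ℝ → Fin n → ℝ) (hy : IsSol E k y J) {s t : ℝ}
    (hsJ : s ∈ J) (ht : t ∈ J) (hst : s ≤ t) (hy0 : y s ∈ cls E x₀) : y t ∈ cls E x₀ := by
  refine ⟨hy.pos t ht, ?_⟩
  have hsub : y t - y s ∈ Submodule.span ℝ {v : Fin n → ℝ | ∃ e ∈ E, v = e.2 - e.1} := by
    rw [← Subspace.forall_mem_dualAnnihilator_apply_eq_zero_iff]
    intro φ hφ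
    rw [Submodule.mem_dualAnnihilator] at hφ
    set l : (Fin n → ℝ) →L[ℝ] ℝ := LinearMap.toContinuousLinearMap φ with hl
    have hlφ : ∀ z, l z = φ z := fun z => rfl
    have h1 : AbsolutelyContinuousOnInterval (fun s => l (y s)) s t :=
      ac_lin (hy.ac s hsJ t ht hst) l
    obtain ⟨C, hC⟩ := h1.const_of_ae_hasDerivAt_zero (by
      filter_upwards [hy.ode] with r hr hrm
      rw [Set.uIcc_of_le hst] at hrm
      have hrJ : r ∈ J := hJ.out hsJ ht hrm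
      have h2 := l.hasFDerivAt.comp_hasDerivAt r (hr hrJ)
      have h3 : l (fld E (fun e => k e r) (y r)) = 0 := by
        rw [hlφ]
        exact hφ _ (fld_mem _ _)
      rw [h3] at h2
      exact h2)
    have e1 := hC t (by rw [Set.uIcc_of_le hst]; exact ⟨hst, le_rfl⟩)
    have e2 := hC s (by rw [Set.uIcc_of_le hst]; exact ⟨le_rfl, hst⟩)
    have : l (y t) - l (y s) = 0 := by
      have e1' : l (y t) = C := e1
      have e2' : l (y s) = C := e2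
      rw [e1', e2', sub_self]
    rw [map_sub]
    exact this
  have := Submodule.add_mem _ hsub hy0.2
  convert this using 1
  abel

/-- the bodies are forward invariant -/
theorem fwd (hNE : NoExitACStm) (D : Dat E ε T c M R0)
    (k : (Fin n → ℝ) × (Fin n → ℝ) → ℝ → ℝ)
    (hk : ∀ e ∈ E, ∀ t : ℝ, ε ≤ k e t ∧ k e t ≤ 1 / ε) {R : ℝ} (hR : R0 ≤ R)
    (J : Set ℝ) (hJ : J.OrdConnected) (y : ℝ → Fin n → ℝ) (hy : IsSol E k y J) {s t : ℝ}
    (hs : s ∈ J) (ht : t ∈ J) (hst : s ≤ t) (h0 : y s ∈ Kb T R) : y t ∈ Kb T R := by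
  refine stay hNE D k hk R hR y (fun s => fld E (fun e => k e s) (y s)) s t hst
    (hy.ac s hs t ht hst) ?_ (fun _ _ => rfl) h0 t ⟨hst, le_rfl⟩
  filter_upwards [hy.ode] with r hr hrm
  exact hr (hJ.out hs ht hrm)

/-- the absorbing time is uniform -/
theorem absorbU (hNE : NoExitACStm) (D : Dat E ε T c M R0) {R1 R2 : ℝ} (hR1 : R0 ≤ R1)
    (h12 : R1 ≤ R2) : ∃ τ : ℝ, 0 < τ ∧ ∀ (k : (Fin n → ℝ) × (Fin n → ℝ) → ℝ → ℝ),
      (∀ e ∈ E, ∀ t : ℝ, ε ≤ k e t ∧ k e t ≤ 1 / ε) → ∀ x₀ : Fin n → ℝ,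
      (∀ R, R1 ≤ R → ∀ p ∈ T, ∑ j, p.1 j * x₀ j < p.2 R) →
      ∀ (J : Set ℝ), J.OrdConnected → ∀ y : ℝ → Fin n → ℝ, IsSol E k y J → ∀ s ∈ J,
      y s ∈ cls E x₀ → y s ∈ Kb T R2 → ∀ t ∈ J, s + τ ≤ t → y t ∈ Kb T R1 := by
  obtain ⟨κ, hκ, hkap⟩ := D.kap R1 R2 hR1
  obtain ⟨Dh, hDh⟩ : ∃ Dh : ℝ, ∀ R ∈ Set.Icc R1 R2, ‖∑ p ∈ T, |deriv p.2 R|‖ ≤ Dh := by
    refine isCompact_Icc.exists_bound_of_continuousOn (Continuous.continuousOn ?_)
    refine continuous_finsetSum _ fun p hp => ?_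
    exact ((D.smooth p hp).continuous_deriv (by norm_num)).abs
  have hDh0 : 0 ≤ Dh := (norm_nonneg _).trans (hDh R1 ⟨le_rfl, h12⟩)
  have hDh' : ∀ p ∈ T, ∀ R ∈ Set.Icc R1 R2, deriv p.2 R ≤ Dh := by
    intro p hp R hR
    refine le_trans ((le_abs_self _).trans ?_) (hDh R hR)
    rw [Real.norm_of_nonneg (Finset.sum_nonneg fun p _ => abs_nonneg _)]
    exact Finset.single_le_sum (f := fun p : (Fin n → ℝ) × (ℝ → ℝ) => |deriv p.2 R|)
      (fun p _ => abs_nonneg _) hp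
  obtain ⟨Rm, _, hRm⟩ := isCompact_Icc.exists_isMinOn (s := Set.Icc R1 R2) ⟨R1, le_rfl, h12⟩
    D.cc.continuousOn
  set η := κ / (1 + Dh) with hη
  have hη0 : 0 < η := by positivity
  have hηD : η * Dh ≤ κ := by
    rw [hη, div_mul_eq_mul_div, div_le_iff₀ (by positivity)]
    nlinarith
  set t1 := (R2 - R1) / η with ht1
  have ht1n : 0 ≤ t1 := div_nonneg (by linarith) hη0.le
  have hηt1 : η * t1 = R2 - R1 := by
    rw [ht1]; field_simp
  refine ⟨t1 + 1, by linarith, ?_⟩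
  intro k hk x₀ hx₀ J hJ y hy s hs hcls0 hR2 t ht hst
  have hs1 : s + t1 ∈ J := hJ.out hs ht ⟨by linarith, by linarith⟩
  have hss : s ≤ s + t1 := by linarith
  have hrange : ∀ r ∈ Set.Icc s (s + t1), R1 ≤ R2 + η * s - η * r ∧ R2 + η * s - η * r ≤ R2 := by
    intro r hr
    have h1 : η * (r - s) ≤ η * t1 := mul_le_mul_of_nonneg_left (by linarith [hr.2]) hη0.le
    have h2 : 0 ≤ η * (r - s) := mul_nonneg hη0.le (by linarith [hr.1])
    constructor <;> nlinarith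
  have key := core hNE T y (fun t => fld E (fun e => k e t) (y t)) s (s + t1) (c Rm)
    (R2 + η * s) η hss (D.cpos Rm) D.smooth (hy.ac s hs (s + t1) hs1 hss)
    (by
      filter_upwards [hy.ode] with r hr hrm
      exact hr (hJ.out hs hs1 hrm))
    (by
      intro p hp
      rw [add_sub_cancel_right]
      exact hR2 p hp)
    (by
      intro r hr p hp h1 h2 h3
      have hr' := hrange r hr
      have h3' : ∑ j, p.1 j * y r j - p.2 (R2 + η * s - η * r) ≤ c (R2 + η * s - η * r) :=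
        h3.trans (hRm ⟨hr'.1, hr'.2⟩)
      have hO : ∃ e ∈ E, ∑ j, p.1 j * (e.2 j - e.1 j) ≠ 0 := by
        by_contra hcon
        push Not at hcon
        have hcr : y r ∈ cls E x₀ :=
          in_cls' x₀ k J hJ y hy hs (hJ.out hs hs1 hr) hr.1 hcls0
        have h4 := val_cls x₀ p.1 hcon (y r) hcr
        have h5 := hx₀ (R2 + η * s - η * r) hr'.1 p hp
        linarith
      have h6 := hkap (R2 + η * s - η * r) hr'.1 hr'.2 (y r) (fun e => k e r)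
        (fun e he => hk e he r) p hp hO h1 h2 h3'
      have h7 : η * deriv p.2 (R2 + η * s - η * r) ≤ η * Dh :=
        mul_le_mul_of_nonneg_left (hDh' p hp _ ⟨hr'.1, hr'.2⟩) hη0.le
      show ∑ j, p.1 j * fld E (fun e => k e r) (y r) j + η * deriv p.2 (R2 + η * s - η * r) ≤ 0
      linarith)
  have hend : y (s + t1) ∈ Kb T R1 := by
    intro p hp
    have := key (s + t1) ⟨hss, le_rfl⟩ p hp
    have e : R2 + η * s - η * (s + t1) = R1 := by linarith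
    rwa [e] at this
  exact fwd hNE D k hk hR1 J hJ y hy hs1 ht (by linarith) hend

end

/-- the uniform statement -/
theorem unif (hF : FieldStm) (hNE : NoExitACStm) {n : ℕ}
    (E : Finset ((Fin n → ℝ) × (Fin n → ℝ)))
    (hE : ∀ e ∈ E, Relation.ReflTransGen (fun u v => (u, v) ∈ E) e.2 e.1) (ε : ℝ) (hε : 0 < ε)
    (C₀ : Set (Fin n → ℝ)) (hC₀ : IsCompact C₀) (hC₀p : ∀ x ∈ C₀, ∀ i, 0 < x i) :
    ∃ K : Set (Fin n → ℝ), IsCompact K ∧ Convex ℝ K ∧ (∀ x ∈ K, ∀ i, 0 < x i) ∧ C₀ ⊆ K ∧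
      (∀ x₀ ∈ C₀, IsCompact (K ∩ cls E x₀)) ∧
      (∀ k : (Fin n → ℝ) × (Fin n → ℝ) → ℝ → ℝ,
        (∀ e ∈ E, ∀ t : ℝ, ε ≤ k e t ∧ k e t ≤ 1 / ε) → ∀ (J : Set ℝ) (x : ℝ → Fin n → ℝ),
        J.OrdConnected → IsSol E k x J → ∀ s ∈ J, x s ∈ K → ∀ t ∈ J, s ≤ t → x t ∈ K) ∧
      ∀ C : Set (Fin n → ℝ), IsCompact C → (∀ z ∈ C, ∃ x₀ ∈ C₀, z ∈ cls E x₀) →
        ∃ τ : ℝ, 0 < τ ∧ ∀ k : (Fin n → ℝ) × (Fin n → ℝ) → ℝ → ℝ,
          (∀ e ∈ E, ∀ t : ℝ, ε ≤ k e t ∧ k e t ≤ 1 / ε) → ∀ (J : Set ℝ) (x : ℝ → Fin n → ℝ),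
          J.OrdConnected → IsSol E k x J → ∀ s ∈ J, x s ∈ C → ∀ t ∈ J, s + τ ≤ t → x t ∈ K := by
  obtain ⟨T, c, M, R0, hc, hM, hc0, hT, hexh, hbnd, hinw, hkap⟩ := hF n E hE ε hε
  have D : Dat E ε T c M R0 := ⟨hc, hM, hc0, hT, hexh, hbnd, hinw, hkap⟩
  obtain ⟨m, B, hm, hB⟩ := box_of_compact hC₀ hC₀p
  obtain ⟨R', hR'⟩ := exh_box D m B hm
  set R1 := max R0 R' with hR1
  have hR01 : R0 ≤ R1 := le_max_left _ _
  have hx₀ : ∀ x₀ ∈ C₀, ∀ R, R1 ≤ R → ∀ p ∈ T, ∑ j, p.1 j * x₀ j < p.2 R := fun x₀ hx R hR =>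
    hR' R ((le_max_right _ _).trans hR) x₀ (hB x₀ hx)
  refine ⟨Kb T R1, Kb_compact D hR01, Kb_convex R1, fun x hx i => Kb_pos D hR01 hx i, ?_,
    fun x₀ _ => Kb_cls D hR01 x₀, ?_, ?_⟩
  · intro x hx p hp
    have := hx₀ x hx R1 le_rfl p hp
    linarith
  · intro k hk J x hJ hx s hs hxs t ht hst
    exact fwd hNE D k hk hR01 J hJ x hx hs ht hst hxs
  · intro C hC hCC
    have hCp : ∀ x ∈ C, ∀ i, 0 < x i := by
      intro x hx
      obtain ⟨x₀, _, h⟩ := hCC x hx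
      exact h.1
    obtain ⟨m', B', hm', hB'⟩ := box_of_compact hC hCp
    obtain ⟨R'', hR''⟩ := exh_box D m' B' hm'
    set R2 := max R1 R'' with hR2
    have h12 : R1 ≤ R2 := le_max_left _ _
    obtain ⟨τ, hτ, H⟩ := absorbU hNE D hR01 h12
    refine ⟨τ, hτ, fun k hk J x hJ hx s hs hxs t ht hst => ?_⟩
    obtain ⟨x₀, hx₀C, hcl⟩ := hCC (x s) hxs
    refine H k hk x₀ (hx₀ x₀ hx₀C) J hJ x hx s hs hcl ?_ t ht hst
    intro p hp
    have := hR'' R2 (le_max_right _ _) (x s) (hB' _ hxs) p hp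
    linarith

/-- solutions for measurable rates: existence and uniqueness -/
theorem wellposed (hF : FieldStm) (hNE : NoExitACStm) (hCA : CaraStm) (hUQ : UniqStm) {n : ℕ}
    (E : Finset ((Fin n → ℝ) × (Fin n → ℝ)))
    (hE : ∀ e ∈ E, Relation.ReflTransGen (fun u v => (u, v) ∈ E) e.2 e.1) (ε : ℝ) (hε : 0 < ε)
    (k : (Fin n → ℝ) × (Fin n → ℝ) → ℝ → ℝ) (hm : ∀ e ∈ E, Measurable (k e))
    (hk : ∀ e ∈ E, ∀ t, ε ≤ k e t ∧ k e t ≤ 1 / ε) (z : Fin n → ℝ) (hz : ∀ i, 0 < z i) :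
    ∃ y : ℝ → Fin n → ℝ, y 0 = z ∧ IsSol E k y (Set.Ici 0) ∧
      ∀ (J : Set ℝ) (x : ℝ → Fin n → ℝ), J.OrdConnected → (0 : ℝ) ∈ J → J ⊆ Set.Ici 0 →
        IsSol E k x J → x 0 = z → ∀ t ∈ J, y t = x t := by
  obtain ⟨T, c, M, R0, hc, hM, hc0, hT, hexh, hbnd, hinw, hkap⟩ := hF n E hE ε hε
  have D : Dat E ε T c M R0 := ⟨hc, hM, hc0, hT, hexh, hbnd, hinw, hkap⟩
  exact exists_sol hNE hCA hUQ hε D k hm hk z hz

end Pool.Agent.Y614.WR.Unif
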